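import Pool.Agent.H46.SK.Targets

/-!
# The asymptotic formula
-/

namespace SK

open Finset

theorem pf_FIN (hFORM : TARGET_FORM) (hSMALL : TARGET_SMALL) (hLARGE : TARGET_LARGE) :
    TARGET_FIN := by
  intro ε hε
  obtain ⟨C, hC, hS⟩ := hSMALL
  obtain ⟨C', K', hC', hLg⟩ := hLARGE
  obtain ⟨m0, hm0⟩ := exists_nat_ge (36 * C / ε + 2)
  obtain ⟨K1, hK1⟩ := exists_nat_ge (Real.exp (m0 ^ 4))
  obtain ⟨K2, hK2⟩ := exists_nat_ge (Real.exp (Real.exp (4 * C' / ε)))
  refine ⟨max (max K' 3) (max K1 K2), ?_⟩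
  intro k hkp hk
  haveI : Fact k.Prime := ⟨hkp⟩
  have hk1 : K' ≤ k := (le_max_left _ _).trans ((le_max_left _ _).trans hk)
  have hk3 : 3 ≤ k := (le_max_right _ _).trans ((le_max_left _ _).trans hk)
  have hk4 : K1 ≤ k := (le_max_left _ _).trans ((le_max_right _ _).trans hk)
  have hk5 : K2 ≤ k := (le_max_right _ _).trans ((le_max_right _ _).trans hk)
  have hkR : (3 : ℝ) ≤ k := by exact_mod_cast hk3
  have hk0 : (0 : ℝ) < k := by linarith
  set L := Real.log k with hL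
  have hL1 : (m0 : ℝ) ^ 4 ≤ L := by
    rw [hL, Real.le_log_iff_exp_le hk0]
    refine hK1.trans ?_
    exact_mod_cast hk4
  have hL2 : Real.exp (4 * C' / ε) ≤ L := by
    rw [hL, Real.le_log_iff_exp_le hk0]
    refine hK2.trans ?_
    exact_mod_cast hk5
  have hm0' : (2 : ℝ) ≤ m0 := by
    have : 0 ≤ 36 * C / ε := by positivity
    linarith
  have hL16 : (16 : ℝ) ≤ L := by
    refine le_trans ?_ hL1
    calc (16 : ℝ) = 2 ^ 4 := by norm_num
      _ ≤ (m0 : ℝ) ^ 4 := pow_le_pow_left₀ (by norm_num) hm0' 4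
  have hL0 : 0 < L := by linarith
  set M := Nat.ceil L with hM
  set m := Nat.sqrt (Nat.sqrt M) with hm
  have hM1 : (M : ℝ) ≤ L + 1 := (Nat.ceil_lt_add_one hL0.le).le
  have hM0 : L ≤ M := Nat.le_ceil L
  have hmM : m ^ 4 ≤ M := by
    have h1 : m ^ 2 ≤ Nat.sqrt M := Nat.sqrt_le' _
    have h2 : (Nat.sqrt M) ^ 2 ≤ M := Nat.sqrt_le' _
    calc m ^ 4 = (m ^ 2) ^ 2 := by ring
      _ ≤ (Nat.sqrt M) ^ 2 := Nat.pow_le_pow_left h1 2
      _ ≤ M := h2
  have hmm0 : m0 ≤ m := by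
    rw [hm, Nat.le_sqrt', Nat.le_sqrt', ← pow_mul]
    have h1 : ((m0 ^ (2 * 2) : ℕ) : ℝ) ≤ (M : ℝ) := by
      push_cast
      exact hL1.trans hM0
    exact_mod_cast h1
  have hmR : (m0 : ℝ) ≤ m := by exact_mod_cast hmm0
  have hm2 : (2 : ℝ) ≤ m := hm0'.trans hmR
  have hmL : (m : ℝ) ^ 4 ≤ L + 1 := by
    refine le_trans ?_ hM1
    exact_mod_cast hmM
  set N := 2 ^ m with hN
  have hN1 : 1 ≤ N := Nat.one_le_two_pow
  have hlogN : Real.log N ≤ m := by
    rw [hN]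
    push_cast
    rw [Real.log_pow]
    have := Real.log_two_lt_d9
    nlinarith
  have hlogN0 : 0 ≤ Real.log N := Real.log_nonneg (by exact_mod_cast hN1)
  have hmltL : (m : ℝ) < L := by
    have h1 : (8 : ℝ) * m ≤ m ^ 4 := by
      have : (8 : ℝ) ≤ m ^ 3 := by
        calc (8 : ℝ) = 2 ^ 3 := by norm_num
          _ ≤ (m : ℝ) ^ 3 := pow_le_pow_left₀ (by norm_num) hm2 3
      nlinarith
    linarith
  have hNk : N < k := by
    have h1 : Real.log N < Real.log k := by rw [← hL]; linarith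
    have h2 : (0 : ℝ) < N := by exact_mod_cast hN1
    have h3 := (Real.log_lt_log_iff h2 hk0).1 h1
    exact_mod_cast h3
  have hNm : (m : ℝ) ≤ N := by
    rw [hN]
    exact_mod_cast (Nat.lt_two_pow_self).le
  have h1 := hS k (by omega) N hN1 hNk
  have h2 := hLg k hk1
  rw [← hL, ← hM, ← hm, ← hN] at h2
  have hF := hFORM k (by omega)
  rw [← Finset.sum_filter_add_sum_filter_not (odds k) (fun n => n ≤ N)] at hF
  have e1 : (odds k).filter (fun n => ¬ n ≤ N) = (odds k).filter (fun n => N < n) :=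
    Finset.filter_congr fun n _ => not_le
  rw [e1] at hF
  set A := ∑ n ∈ (odds k).filter (fun n => n ≤ N), w k n * T k n with hA
  set B := ∑ n ∈ (odds k).filter (fun n => N < n), w k n * T k n with hB
  have e2 : (S k : ℝ) - k * L / 2 = 2 / k * ((A - (k : ℝ) ^ 2 * L / 4) + B) := by
    rw [hF]
    field_simp
    ring
  rw [e2, abs_mul, abs_of_pos (by positivity : (0 : ℝ) < 2 / k)]
  have h3 := (abs_add_le (A - (k : ℝ) ^ 2 * L / 4) B).trans (add_le_add h1 h2)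
  refine (mul_le_mul_of_nonneg_left h3 (by positivity)).trans ?_
  have e3 : 2 / (k : ℝ) * (C * (k : ℝ) ^ 2 * (L / N + (1 + Real.log N) ^ 2) +
      C' * (k : ℝ) ^ 2 * L / Real.log L) =
      (2 * C / N + 2 * C * ((1 + Real.log N) ^ 2 / L) + 2 * C' / Real.log L) * (k * L) := by
    field_simp
  rw [e3]
  apply mul_le_mul_of_nonneg_right _ (by positivity)
  have hm0pos : (0 : ℝ) < m := by linarith
  have f1 : 2 * C / N ≤ 2 * C / m :=
    div_le_div_of_nonneg_left (by positivity) hm0pos hNm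
  have f2 : (1 + Real.log N) ^ 2 / L ≤ 8 / m := by
    have g1 : (1 + Real.log N) ^ 2 ≤ (2 * m) ^ 2 :=
      pow_le_pow_left₀ (by linarith) (by linarith) 2
    rw [div_le_div_iff₀ hL0 hm0pos]
    have g2 : (m : ℝ) ^ 4 ≤ 2 * L := by linarith
    have g3 : (2 * (m : ℝ)) ^ 2 * m = 4 * m ^ 3 := by ring
    have g4 : 4 * (m : ℝ) ^ 3 ≤ 2 * m ^ 4 := by
      have : (0 : ℝ) ≤ m ^ 3 := by positivity
      nlinarith
    calc (1 + Real.log N) ^ 2 * m ≤ (2 * (m : ℝ)) ^ 2 * m :=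
          mul_le_mul_of_nonneg_right g1 hm0pos.le
      _ ≤ 8 * L := by rw [g3]; linarith
  have f3 : 2 * C' / Real.log L ≤ ε / 2 := by
    have g1 : 4 * C' / ε ≤ Real.log L := by
      rw [Real.le_log_iff_exp_le hL0]
      exact hL2
    have g2 : 0 < 4 * C' / ε := by positivity
    rw [div_le_iff₀ (by linarith)]
    have g3 : ε / 2 * (4 * C' / ε) = 2 * C' := by
      field_simp
      ring
    have := mul_le_mul_of_nonneg_left g1 (by positivity : (0 : ℝ) ≤ ε / 2)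
    linarith
  have f4 : 2 * C / m + 2 * C * (8 / m) ≤ ε / 2 := by
    have g1 : 36 * C / ε ≤ m := by linarith
    have g2 : 2 * C / m + 2 * C * (8 / m) = 18 * C / m := by ring
    rw [g2, div_le_iff₀ hm0pos]
    rw [div_le_iff₀ hε] at g1
    linarith
  have f5 := mul_le_mul_of_nonneg_left f2 (by positivity : (0 : ℝ) ≤ 2 * C)
  linarith

end SK
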