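import Pool.Agent.H46.SK.Targets

/-!
# Cutting T(n) for good n
-/

namespace SK

open Finset

theorem goodt_split (k U n : ℕ) : T k n - TU k U n =
    ∑ u ∈ (odds k).filter (fun u => U < u), w k u * eps k ((u : ZMod k) * (n : ZMod k)⁻¹) := by
  unfold T TU
  rw [← Finset.sum_filter_add_sum_filter_not (odds k) (fun u => u ≤ U)]
  rw [add_sub_cancel_left]
  apply Finset.sum_congr _ fun _ _ => rfl
  apply Finset.filter_congr
  intro u _
  exact not_le

theorem pf_GOODT (hDIR : TARGET_DIR) (hTAIL : TARGET_TAIL) : TARGET_GOODT := by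
  intro k hk hk2 H Q U hH hQ n hn hbad
  unfold odds at hn
  rw [Finset.mem_filter, Finset.mem_range] at hn
  have hk1 : 1 < k := hk.out.one_lt
  have hn0 : (n : ZMod k) ≠ 0 := by
    intro h
    rw [ZMod.natCast_eq_zero_iff] at h
    have := Nat.le_of_dvd (by omega) h
    omega
  obtain ⟨q, a, hq1, hqQ, hgcd, happ⟩ := hDIR k ((n : ZMod k)⁻¹) Q hQ
  set z : ℤ := (q : ℤ) * (((n : ZMod k)⁻¹).val : ℤ) - a * k with hz
  have hQq : (q : ℤ) ≤ Q := by exact_mod_cast hqQ
  have hHq : H < q := by
    by_contra hc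
    push Not at hc
    apply hbad
    refine ⟨q, hq1, hc, z, ?_, ?_⟩
    · refine le_trans ?_ happ
      exact mul_le_mul_of_nonneg_left (by omega) (abs_nonneg _)
    · rw [hz]
      push_cast
      rw [ZMod.natCast_zmod_val, ZMod.natCast_self, mul_zero, sub_zero, mul_assoc,
        inv_mul_cancel₀ hn0, mul_one]
  have htail := hTAIL k hk2 ((n : ZMod k)⁻¹) q U a (by omega) hgcd (by
    refine le_trans ?_ happ
    exact mul_le_mul_of_nonneg_left (by omega) (abs_nonneg _))
  rw [goodt_split]
  refine htail.trans ?_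
  have hkR : (1 : ℝ) < k := by exact_mod_cast hk1
  have hlog : 0 < Real.log k := Real.log_pos hkR
  have hHR : (0 : ℝ) < H := by exact_mod_cast hH
  have hHqR : (H : ℝ) ≤ q := by exact_mod_cast hHq.le
  have hqQR : (q : ℝ) ≤ Q := by exact_mod_cast hqQ
  apply add_le_add
  · exact div_le_div_of_nonneg_left (by positivity) hHR hHqR
  · exact div_le_div_of_nonneg_right (mul_le_mul_of_nonneg_right hqQR (by linarith))
      (by positivity)

end SK
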