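import Pool.Agent.H46.SK.Targets

/-!
# Combination of good, bad, smooth
-/

namespace SK

open Finset

theorem midr_split (k U n : ℕ) : T k n - TU k U n =
    ∑ u ∈ (odds k).filter (fun u => U < u), w k u * eps k ((u : ZMod k) * (n : ZMod k)⁻¹) := by
  unfold T TU
  rw [← Finset.sum_filter_add_sum_filter_not (odds k) (fun u => u ≤ U)]
  rw [add_sub_cancel_left]
  apply Finset.sum_congr _ fun _ _ => rfl
  apply Finset.filter_congr
  intro u _
  exact not_le

theorem midr_eps (k : ℕ) (x : ZMod k) : |eps k x| ≤ 1 := by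
  unfold eps
  split_ifs <;> simp

theorem pf_MIDR (hWGT : TARGET_WGT) (hGOODT : TARGET_GOODT) (hBADW : TARGET_BADW)
    (hSMO : TARGET_SMO) : TARGET_MIDR := by
  classical
  intro k hk hk2 H Q U y N hH hHk hQ hy hHN
  have hk3 : 3 ≤ k := by
    have h1 := hk.out.two_le
    omega
  obtain ⟨hw0, hw1, -, -, -, hwsum⟩ := hWGT k hk3
  have hkR : (3 : ℝ) ≤ k := by exact_mod_cast hk3
  have hlog : 0 < Real.log k := Real.log_pos (by linarith)
  set L := Real.log k with hL
  set s := (odds k).filter (fun n => N < n) with hs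
  have hmem : ∀ n ∈ s, n ∈ odds k ∧ 0 < n ∧ n < k ∧ N < n := by
    intro n hn
    rw [hs, Finset.mem_filter] at hn
    have h1 := hn.1
    unfold odds at h1
    rw [Finset.mem_filter, Finset.mem_range] at h1
    exact ⟨hn.1, by omega, h1.1, hn.2⟩
  have hodd : ∀ n ∈ odds k, 0 < n ∧ n < k := by
    intro n hn
    unfold odds at hn
    rw [Finset.mem_filter, Finset.mem_range] at hn
    omega
  set G : ℝ := 12 * k * (1 + L) / H + (Q : ℝ) * k / (U + 1) with hG
  have hG0 : 0 ≤ G := by positivity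
  -- crude bound
  have hcrude : ∀ n, |T k n - TU k U n| ≤ k * (1 + L) := by
    intro n
    rw [midr_split]
    refine (Finset.abs_sum_le_sum_abs _ _).trans (le_trans ?_ hwsum)
    refine le_trans (Finset.sum_le_sum (g := fun u => w k u) ?_)
      (Finset.sum_le_sum_of_subset_of_nonneg (Finset.filter_subset _ _) ?_)
    · intro u hu
      rw [Finset.mem_filter] at hu
      obtain ⟨h1, h2⟩ := hodd u hu.1
      rw [abs_mul, abs_of_pos (hw0 u h1 h2)]
      exact mul_le_of_le_one_right (hw0 u h1 h2).le (midr_eps _ _)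
    · intro u hu _
      obtain ⟨h1, h2⟩ := hodd u hu
      exact (hw0 u h1 h2).le
  -- weights
  have hwn : ∀ n, 0 < n → n < k → w k n ≤ k * (1 / n) := by
    intro n h1 h2
    refine (hw1 n h1 h2).trans ?_
    have hn : (0 : ℝ) < n := by exact_mod_cast h1
    have hpi := Real.pi_gt_three
    rw [mul_one_div, div_le_div_iff₀ (by positivity) hn]
    have : (0 : ℝ) < k * n := by positivity
    nlinarith
  -- the pointwise bound
  have hpt : ∀ n ∈ s, |w k n * (T k n - TU k U n)| ≤ w k n * G +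
      ((if bad k H Q n ∧ ∃ p, p.Prime ∧ y < p ∧ p ∣ n then (k : ℝ) ^ 2 * (1 + L) * (1 / n) else 0)
      + (if ∀ p, p.Prime → p ∣ n → p ≤ y then (k : ℝ) ^ 2 * (1 + L) * (1 / n) else 0)) := by
    intro n hn
    obtain ⟨h1, h2, h3, h4⟩ := hmem n hn
    have hw := hw0 n h2 h3
    rw [abs_mul, abs_of_pos hw]
    have hnn : (0 : ℝ) ≤ (k : ℝ) ^ 2 * (1 + L) * (1 / n) := by positivity
    by_cases hb : bad k H Q n
    · have h5 : w k n * |T k n - TU k U n| ≤ (k : ℝ) ^ 2 * (1 + L) * (1 / n) := by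
        calc w k n * |T k n - TU k U n| ≤ (k * (1 / n)) * (k * (1 + L)) :=
              mul_le_mul (hwn n h2 h3) (hcrude n) (abs_nonneg _) (by positivity)
          _ = (k : ℝ) ^ 2 * (1 + L) * (1 / n) := by ring
      have h6 : 0 ≤ w k n * G := mul_nonneg hw.le hG0
      by_cases hp : ∃ p, p.Prime ∧ y < p ∧ p ∣ n
      · rw [if_pos ⟨hb, hp⟩]
        split_ifs <;> linarith
      · have hsm : ∀ p, p.Prime → p ∣ n → p ≤ y := by
          intro p hp1 hp2
          by_contra hc
          exact hp ⟨p, hp1, by omega, hp2⟩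
        rw [if_pos hsm]
        split_ifs <;> linarith
    · have h5 := hGOODT k hk2 H Q U hH hQ n h1 hb
      have h6 : w k n * |T k n - TU k U n| ≤ w k n * G := mul_le_mul_of_nonneg_left h5 hw.le
      have h7 : (0 : ℝ) ≤ if bad k H Q n ∧ ∃ p, p.Prime ∧ y < p ∧ p ∣ n then
          (k : ℝ) ^ 2 * (1 + L) * (1 / n) else 0 := by split_ifs <;> [exact hnn; exact le_rfl]
      have h8 : (0 : ℝ) ≤ if ∀ p, p.Prime → p ∣ n → p ≤ y then
          (k : ℝ) ^ 2 * (1 + L) * (1 / n) else 0 := by split_ifs <;> [exact hnn; exact le_rfl]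
      linarith
  refine (Finset.abs_sum_le_sum_abs _ _).trans ((Finset.sum_le_sum hpt).trans ?_)
  rw [Finset.sum_add_distrib, Finset.sum_add_distrib, ← Finset.sum_mul, ← Finset.sum_filter,
    ← Finset.sum_filter, ← Finset.mul_sum, ← Finset.mul_sum]
  have hA : ∑ n ∈ s, w k n ≤ k * (1 + L) := by
    refine le_trans ?_ hwsum
    refine Finset.sum_le_sum_of_subset_of_nonneg (Finset.filter_subset _ _) ?_
    intro u hu _
    obtain ⟨h1, h2⟩ := hodd u hu
    exact (hw0 u h1 h2).le
  have hB := hBADW k H Q y hk.out hk3 hH hHk hQ (by omega)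
    (s.filter (fun n => bad k H Q n ∧ ∃ p, p.Prime ∧ y < p ∧ p ∣ n)) (by
      intro n hn
      rw [Finset.mem_filter] at hn
      obtain ⟨h1, h2, h3, h4⟩ := hmem n hn.1
      exact ⟨h3, by omega, hn.2.1, hn.2.2⟩)
  have hC := hSMO y N hy (by omega)
    (s.filter (fun n => ∀ p, p.Prime → p ∣ n → p ≤ y)) (by
      intro n hn
      rw [Finset.mem_filter] at hn
      obtain ⟨h1, h2, h3, h4⟩ := hmem n hn.1
      exact ⟨h4, hn.2⟩)
  have hkk : (0 : ℝ) ≤ (k : ℝ) ^ 2 * (1 + L) := by positivity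
  have e1 := mul_le_mul_of_nonneg_right hA hG0
  have e2 := mul_le_mul_of_nonneg_left hB hkk
  have e3 := mul_le_mul_of_nonneg_left hC hkk
  calc _ ≤ k * (1 + L) * G + ((k : ℝ) ^ 2 * (1 + L) *
        (100 * H * (1 + L) ^ 3 * (1 / y + 1 / Q)) + (k : ℝ) ^ 2 * (1 + L) *
        ((y : ℝ) ^ 8 * Real.exp (-(Real.log N / Real.log y)))) :=
        add_le_add e1 (add_le_add e2 e3)
    _ = _ := by ring

end SK
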